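import Pool.Agent.N209.CD.Defs

/-!
# Motives over finite fields: definitions
-/

set_option autoImplicit false

open CategoryTheory Limits MonoidalCategory Pretriangulated Triangulated

namespace Pool.Agent.N209.FF

open Pool.Agent.Y116.MT

universe v u w

section

variable {C : Type u} [Category.{v} C] [Preadditive C] [HasZeroObject C] [HasShift C ℤ]
  [∀ n : ℤ, (shiftFunctor C n).Additive] [Pretriangulated C] [MonoidalCategory C]
  [SymmetricCategory C] [TensorTriangulated C]

/-- Rational and numerical equivalence coincide on the class `W`: for each non-zero morphism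
`s : 𝟙 ⟶ M` with `M` in `W` there is a morphism `r : M ⟶ 𝟙` with `s ≫ r ≠ 0`. -/
def RatNum (W : ObjectProperty C) : Prop :=
  ∀ M : C, W M → ∀ s : 𝟙_ C ⟶ M, s ≠ 0 → ∃ r : M ⟶ 𝟙_ C, s ≫ r ≠ 0

/-- Parshin's conjecture for the class `W`: the groups `Hom(𝟙, M⟦n⟧)` for `n < 0` and `M` in `W`
(which are rational higher Chow groups of smooth projective varieties) vanish. -/
def Parshin (W : ObjectProperty C) : Prop :=
  ∀ M : C, W M → ∀ n : ℤ, n < 0 → ∀ s : 𝟙_ C ⟶ M⟦n⟧, s = 0

/-- The realisation `R` is faithful: a morphism which induces zero on cohomology is zero. -/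
def IsFaithful {E : Type w} [Field E] (R : Realisation C E) : Prop :=
  ∀ (X Y : C) (f : X ⟶ Y), (∀ i : ℤ, R.H.map (f⟦i⟧') = 0) → f = 0

/-- The cohomology class of a morphism `s : 𝟙 ⟶ X`, an element of `H(X)`. -/
noncomputable def cl {E : Type w} [Field E] (R : Realisation C E) {X : C} (s : 𝟙_ C ⟶ X) :
    R.H.obj X :=
  (R.H.map s).hom ((Functor.LaxMonoidal.ε R.H).hom (1 : E))

/-- The maps `Hom(𝟙, X) ⊗ E → H(X)` are injective, for all `X`: linearly independent elements of
`Hom(𝟙, X)` have linearly independent cohomology classes. -/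
def ClassInjective [Linear ℚ C] {E : Type w} [Field E] (R : Realisation C E) : Prop :=
  ∀ (X : C) (ι : Type) (s : ι → (𝟙_ C ⟶ X)), LinearIndependent ℚ s →
    LinearIndependent E (fun i => cl R (s i))

end

end Pool.Agent.N209.FF
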