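import Pool.Agent.N209.FF.Num

/-!
# Faithfulness of the realisation, numerical equivalence and regularity of all morphisms
-/

set_option autoImplicit false
set_option linter.unusedSectionVars false
set_option linter.unusedSimpArgs false
set_option backward.isDefEq.respectTransparency false
set_option backward.defeqAttrib.useBackward true

open CategoryTheory Limits MonoidalCategory Pretriangulated Triangulated ObjectProperty

namespace Pool.Agent.N209.FF

open Pool.Agent.Y116.MT Pool.Agent.N209.MT Pool.Agent.V1178.MT Pool.Agent.N209.CD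

universe v u w

section

variable {C : Type u} [Category.{v} C] [Preadditive C] [HasZeroObject C] [HasShift C ℤ]
  [∀ n : ℤ, (shiftFunctor C n).Additive] [Pretriangulated C]
  [MonoidalCategory C] [SymmetricCategory C] [TensorTriangulated C] [MonoidalPreadditive C]
  [RightRigidCategory C] [Linear ℚ C] {E : Type w} [Field E] {R : Realisation C E}

lemma map_zero_of_killed {X Y : C} {f : X ⟶ Y} (h : Killed R f) : R.H.map f = 0 := by
  have h1 : f = (shiftFunctorZero C ℤ).inv.app X ≫ f⟦(0 : ℤ)⟧' ≫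
      (shiftFunctorZero C ℤ).hom.app Y := by
    have h2 := (shiftFunctorZero C ℤ).hom.naturality f
    simp only [Functor.id_obj, Functor.id_map] at h2
    rw [h2, ← Category.assoc]
    have h3 : (shiftFunctorZero C ℤ).inv.app X ≫ (shiftFunctorZero C ℤ).hom.app X = 𝟙 _ :=
      (shiftFunctorZero C ℤ).inv_hom_id_app X
    rw [h3]
    exact (Category.id_comp _).symm
  rw [h1, Functor.map_comp, Functor.map_comp, h 0, zero_comp, comp_zero]

lemma killed_nm {M N : C} {f : M ⟶ N} (h : Killed R f) : Killed R (nm f) :=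
  (h.whiskerRight _).comp_left _

lemma ratHom_smul_ne {X Y : C} {f : X ⟶ Y} {q : ℚ} (hq : q ≠ 0) (h : R.H.map (q • f) = 0) :
    R.H.map f = 0 := by
  rw [CD.map_rat_smul] at h
  have h1 : ratHom R q ≠ 0 := (map_ne_zero (ratHom R)).2 hq
  have h2 : (ratHom R q)⁻¹ • (ratHom R q • R.H.map f) = 0 := by rw [h, smul_zero]
  rwa [smul_smul, inv_mul_cancel₀ h1, one_smul] at h2

include R in
lemma map_end_ne (hQ : ∀ e : 𝟙_ C ⟶ 𝟙_ C, ∃ q : ℚ, e = q • 𝟙 _) {e : 𝟙_ C ⟶ 𝟙_ C}
    (h : R.H.map e = 0) : e = 0 := by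
  obtain ⟨q, rfl⟩ := hQ e
  by_cases hq : q = 0
  · rw [hq, zero_smul]
  · exfalso
    apply not_isZero_H_unit R
    rw [IsZero.iff_id_eq_zero, ← CategoryTheory.Functor.map_id, ratHom_smul_ne hq h]

variable (hQ : ∀ e : 𝟙_ C ⟶ 𝟙_ C, ∃ q : ℚ, e = q • 𝟙 _)
  (hN : ∀ (X : C) (s : 𝟙_ C ⟶ X), s ≠ 0 → ∃ r : X ⟶ 𝟙_ C, s ≫ r ≠ 0)

include hQ hN in
theorem faithful_of_ratNum : IsFaithful R := by
  intro X Y f hf
  apply eq_zero_of_nm
  by_contra h
  obtain ⟨r, hr⟩ := hN _ _ h
  apply hr
  apply map_end_ne (R := R) hQ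
  rw [Functor.map_comp, map_zero_of_killed (killed_nm (R := R) hf), zero_comp]

include R hQ hN in
theorem regular_of_ratNum {M N : C} (f : M ⟶ N) : ∃ g : N ⟶ M, f ≫ g ≫ f = f := by
  obtain ⟨g, hg⟩ := regular_hom (R := R) hQ (fun s hs => hN _ s (fun h0 => hs (by
    rw [h0, Functor.map_zero]))) f
  exact ⟨g, sub_eq_zero.1 (faithful_of_ratNum (R := R) hQ hN _ _ _ hg)⟩

omit [HasZeroObject C] [HasShift C ℤ] [∀ n : ℤ, (shiftFunctor C n).Additive] [Pretriangulated C]
  [SymmetricCategory C] [TensorTriangulated C] [MonoidalPreadditive C] [RightRigidCategory C]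
  [Linear ℚ C] in
theorem ratNum_of_regular
    (h : ∀ (M N : C) (f : M ⟶ N), ∃ g : N ⟶ M, f ≫ g ≫ f = f) (X : C) (s : 𝟙_ C ⟶ X)
    (hs : s ≠ 0) : ∃ r : X ⟶ 𝟙_ C, s ≫ r ≠ 0 := by
  obtain ⟨g, hg⟩ := h _ _ s
  exact ⟨g, fun h0 => hs (by rw [← hg, ← Category.assoc, h0, zero_comp])⟩

lemma eps_ne : (Functor.LaxMonoidal.ε R.H).hom (1 : E) ≠ 0 := by
  intro h
  have h1 : (inv (Functor.LaxMonoidal.ε R.H)).hom ((Functor.LaxMonoidal.ε R.H).hom (1 : E)) =
      (1 : E) := by
    have h2 : (Functor.LaxMonoidal.ε R.H ≫ inv (Functor.LaxMonoidal.ε R.H)).hom (1 : E) =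
        (1 : E) := by
      rw [IsIso.hom_inv_id]
      rfl
    exact h2
  rw [h, map_zero] at h1
  exact zero_ne_one h1

include hQ hN in
theorem classInjective_of_ratNum : ClassInjective R := by
  classical
  intro X ι s hs
  obtain ⟨κ, hκ⟩ := exists_scalar hQ (by
    intro h
    apply not_isZero_unit R
    rwa [IsZero.iff_id_eq_zero])
  rw [linearIndependent_iff']
  intro t a ha i hi
  have e := t.equivFin
  have hX : LN (𝟙_ C) X := hN X
  obtain ⟨r, hr⟩ := lin_dual (numPair κ X) (hX.pairing hκ) (fun k => s (e.symm k))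
    (hs.comp _ (Subtype.val_injective.comp e.symm.injective))
  have h1 : ∀ j ∈ t, (R.H.map (r (e ⟨i, hi⟩))).hom (cl R (s j)) =
      if j = i then (Functor.LaxMonoidal.ε R.H).hom (1 : E) else 0 := by
    intro j hj
    have h2 : s j ≫ r (e ⟨i, hi⟩) = (if j = i then (1 : ℚ) else 0) • 𝟙 (𝟙_ C) := by
      have h3 := kappa_eq hκ (hr (e ⟨j, hj⟩) (e ⟨i, hi⟩))
      simpa using h3
    have h3 : (R.H.map (r (e ⟨i, hi⟩))).hom (cl R (s j)) =
        (R.H.map (s j ≫ r (e ⟨i, hi⟩))).hom ((Functor.LaxMonoidal.ε R.H).hom (1 : E)) := by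
      rw [Functor.map_comp]
      rfl
    rw [h3, h2]
    split_ifs
    · rw [one_smul, CategoryTheory.Functor.map_id]
      rfl
    · rw [zero_smul, Functor.map_zero]
      rfl
  have h2 := congrArg (R.H.map (r (e ⟨i, hi⟩))).hom ha
  rw [map_sum, map_zero] at h2
  have h3 : ∑ j ∈ t, (R.H.map (r (e ⟨i, hi⟩))).hom (a j • cl R (s j)) =
      ∑ j ∈ t, if j = i then a i • (Functor.LaxMonoidal.ε R.H).hom (1 : E) else 0 := by
    refine Finset.sum_congr rfl fun j hj => ?_
    rw [map_smul, h1 j hj]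
    split_ifs with hji
    · rw [hji]
    · rw [smul_zero]
  rw [h3, Finset.sum_ite_eq' t i, if_pos hi] at h2
  exact (smul_eq_zero.1 h2).resolve_right eps_ne

theorem faithful_of_classInjective (h : ClassInjective R) : IsFaithful R := by
  intro X Y f hf
  apply eq_zero_of_nm
  by_contra h0
  have h1 := (h (Y ⊗ (Xᘁ : C)) Unit (fun _ => nm f) (by
    rw [linearIndependent_unique_iff]
    exact h0)).ne_zero ()
  apply h1
  rw [cl, map_zero_of_killed (killed_nm (R := R) hf)]
  rfl

variable [IsTriangulated C] {W : ObjectProperty C} (hW : IsChowClass W) {q : ℝ}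
  (F : Frobenius R W q)

omit [IsTriangulated C] [RightRigidCategory C] [MonoidalPreadditive C] [Linear ℚ C] in
lemma conservative_of_faithful (h : IsFaithful R) : Conservative R := by
  intro X hX
  rw [IsZero.iff_id_eq_zero]
  exact h _ _ _ fun i => (hX i).eq_of_src _ _

include F in
omit [IsTriangulated C] in
/-- Classes of non-zero weight vanish in cohomology. -/
lemma map_zero_of_weight {M : C} (hM : W M) {n : ℤ} (hn : n ≠ 0) (s : 𝟙_ C ⟶ M⟦n⟧) :
    R.H.map s = 0 := by
  obtain ⟨P, hP0, hP, hP'⟩ := F.pure M hM n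
  have h1 : P.eval 1 ≠ 0 := by
    intro h
    have h1 := hP 1 (by
      rw [← map_one (algebraMap ℚ ℂ), Polynomial.aeval_algebraMap_apply,
        Polynomial.coe_aeval_eq_eval, h, map_zero])
    have h2 : q ^ (-(n : ℝ) / 2) = q ^ (-((0 : ℤ) : ℝ) / 2) := by
      rw [← h1]
      simp
    exact rpow_ne F.one_lt hn h2
  have h2 : F.φ (𝟙_ C) = 𝟙 _ := F.unit
  have h3 := comp_pev s _ _ (F.φ_natural s) P
  rw [h2, pev_id, Linear.smul_comp, Category.id_comp] at h3
  apply ratHom_smul_ne h1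
  rw [← h3, Functor.map_comp, show R.H.map (pev (F.φ (M⟦n⟧)) P) = 0 from hP', comp_zero]

include hW F in
/-- Over a finite field, faithfulness of the realisation implies that rational and numerical
equivalence coincide, and Parshin's conjecture. -/
theorem ratNum_parshin_of_faithful (h : IsFaithful R) : RatNum W ∧ Parshin W := by
  have h1 := homNum_of_conservative hW (conservative_of_faithful h) F.lifts
  constructor
  · intro M hM s hs
    refine h1 M hM s fun h0 => hs ?_
    exact h _ _ _ (killed_of_unit h0)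
  · intro M hM n hn s
    exact h _ _ _ (killed_of_unit (map_zero_of_weight F hM hn.ne s))

end

end Pool.Agent.N209.FF
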