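import Pool.Agent.N209.FF.Tst

/-!
# A motivic t-structure over a finite field: rational and numerical equivalence coincide
-/

set_option autoImplicit false
set_option linter.unusedSectionVars false
set_option linter.unusedSimpArgs false
set_option backward.isDefEq.respectTransparency false
set_option backward.defeqAttrib.useBackward true

open CategoryTheory Limits MonoidalCategory Pretriangulated Triangulated ObjectProperty

namespace Pool.Agent.N209.FF

open Pool.Agent.Y116.MT Pool.Agent.N209.MT Pool.Agent.V1178.MT Pool.Agent.N209.CD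

universe v u w

section

variable {C : Type u} [Category.{v} C] [Preadditive C] [HasZeroObject C] [HasShift C ℤ]
  [∀ n : ℤ, (shiftFunctor C n).Additive] [Pretriangulated C] [IsTriangulated C]
  [MonoidalCategory C] [SymmetricCategory C] [TensorTriangulated C] [MonoidalPreadditive C]
  [RightRigidCategory C] [Linear ℚ C] {E : Type w} [Field E] {R : Realisation C E}
  {t : TStructure C}

/-- The map on cohomology is an epimorphism if the next cohomology of the first object
vanishes. -/
lemma epi_of_isZero {X Y Z : C} {f : X ⟶ Y} {g : Y ⟶ Z} {h : Z ⟶ X⟦(1 : ℤ)⟧}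
    (hT : Triangle.mk f g h ∈ distTriang C) (m : ℤ) (hX : IsZero (R.H.obj (X⟦m + 1⟧))) :
    Epi (R.H.map (g⟦m⟧')) := by
  let _ := Functor.ShiftSequence.tautological R.H ℤ
  refine (R.H.homologySequence_epi_shift_map_mor₂_iff _ hT m (m + 1) rfl).2 ?_
  exact hX.eq_of_tgt _ _

variable (ht : TensorCompat t) (he : TExact t R) (hu : Hrt t (𝟙_ C))
  (hid : ∀ e : 𝟙_ C ⟶ 𝟙_ C, e ≫ e = e → e = 0 ∨ e = 𝟙 _)

include ht he hu hid

lemma killed_single {X : C} {a : ℤ} (h1 : t.IsLE X a) (h2 : t.IsGE X a) {g : X ⟶ X}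
    (hg : Killed R g) : g = 0 := by
  have h3 : Hrt t (X⟦a⟧) := ⟨t.isLE_shift X a a 0, t.isGE_shift X a a 0⟩
  apply (shiftFunctor C a).map_injective
  rw [Functor.map_zero]
  exact faithful_heart ht he hu hid h3 h3 _ (hg a)

/-- Killed endomorphisms are nilpotent if there is a motivic t-structure. -/
lemma nilpotent_of_killed (n : ℕ) : ∀ (Y : C) (a b : ℤ), b - a ≤ n → t.IsGE Y a → t.IsLE Y b →
    ∀ g : Y ⟶ Y, Killed R g → epow g (n + 1) = 0 := by
  induction n with
  | zero =>
    intro Y a b hab h1 h2 g hg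
    have h3 := killed_single ht he hu hid (t.isLE_of_le Y b a (by omega)) h1 hg
    rw [epow_succ, h3, zero_comp]
  | succ n ih =>
    intro Y a b hab h1 h2 g hg
    by_cases hb : b ≤ a
    · have h3 := killed_single ht he hu hid (t.isLE_of_le Y b a hb) h1 hg
      rw [epow_succ, h3, zero_comp]
    obtain ⟨X, Z, hX, hZ, i, p, d, hT⟩ := t.exists_triangle Y a (a + 1) rfl
    have hX1 : t.IsLE X a := ⟨hX⟩
    have hZ1 : t.IsGE Z (a + 1) := ⟨hZ⟩
    have hX2 : t.IsGE X a := isGE1 hT h1 (t.isGE_of_ge Z (a - 1) (a + 1))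
    have hZ2 : t.IsLE Z b := isLE3 hT (t.isLE_of_le X a (b + 1) (by omega)) h2
    have h3 : (i ≫ g) ≫ p = 0 := t.zero_of_isLE_of_isGE _ a (a + 1) (by omega) hX1 hZ1
    obtain ⟨gX, hgX⟩ := ce2 hT (i ≫ g) h3
    obtain ⟨gZ, hgZ⟩ := ye2 hT (g ≫ p) (by rw [← Category.assoc, h3])
    have hkX : Killed R gX := by
      intro j
      by_cases hj : j = a
      · subst hj
        have := mono_of_isZero R hT j (he.isGE hZ1 _ (by omega))
        rw [← cancel_mono (R.H.map (i⟦j⟧')), zero_comp, ← Functor.map_comp, ← Functor.map_comp,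
          ← hgX, Functor.map_comp, Functor.map_comp, hg j, comp_zero]
      · have h4 : R.Deg X a := by
          intro k hk
          rcases lt_or_gt_of_ne hk with h | h
          · exact he.isGE hX2 _ h
          · exact he.isLE hX1 _ h
        exact (h4 j hj).eq_of_src _ _
    have hkZ : Killed R gZ := by
      intro j
      by_cases hj : j + 1 = a
      · exact (he.isGE hZ1 j (by omega)).eq_of_src _ _
      · have h4 : IsZero (R.H.obj (X⟦j + 1⟧)) := by
          rcases lt_or_gt_of_ne hj with h | h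
          · exact he.isGE hX2 _ h
          · exact he.isLE hX1 _ h
        have := epi_of_isZero hT j h4
        rw [← cancel_epi (R.H.map (p⟦j⟧')), comp_zero, ← Functor.map_comp, ← Functor.map_comp,
          ← hgZ, Functor.map_comp, Functor.map_comp, hg j, zero_comp]
    have hgX0 := killed_single ht he hu hid hX1 hX2 hkX
    have h5 := ih Z (a + 1) b (by push_cast at hab; omega) hZ1 hZ2 gZ hkZ
    have h6 : epow g (n + 1) ≫ p = 0 := by
      have h7 := comp_epow p g gZ hgZ.symm (n + 1)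
      rw [← h7, h5, comp_zero]
    obtain ⟨k, hk⟩ := ce2 hT _ h6
    have h8 : epow g (n + 1 + 1) = epow g (n + 1) ≫ g := by
      rw [epow_succ]
      exact comp_epow g g g rfl (n + 1)
    rw [h8, hk, Category.assoc, hgX, hgX0, zero_comp, comp_zero]

variable (hle : ∀ X : C, (∀ n : ℤ, t.le n X) → IsZero X)
  (hge : ∀ X : C, (∀ n : ℤ, t.ge n X) → IsZero X)

include hle hge

lemma zero_of_fixed {Y : C} {e : Y ⟶ Y} (hk : Killed R e) {s : 𝟙_ C ⟶ Y} (hs : s ≫ e = s) :
    s = 0 := by
  obtain ⟨N, h1, h2⟩ := bounded_of_H ht he hu hid hle hge Y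
  have h3 := nilpotent_of_killed ht he hu hid (2 * N) Y (-N) N (by push_cast; omega) h2 h1 e hk
  have h4 : ∀ n : ℕ, s ≫ epow e n = s := by
    intro n
    induction n with
    | zero => rw [epow_zero, Category.comp_id]
    | succ n ih => rw [epow_succ, ← Category.assoc, hs, ih]
  rw [← h4 (2 * N + 1), h3, comp_zero]

variable {W : ObjectProperty C} {q : ℝ} (F : Frobenius R W q)

include F in
/-- Classes which vanish in cohomology are zero, for objects on which a polynomial in the
Frobenius kills the cohomology in negative degrees. -/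
lemma zero_of_frob {N : C} {Q : Polynomial ℚ} (hQ1 : Q.eval 1 = 1)
    (hN : ∀ j : ℤ, j < 0 → R.H.map (pev (F.φ (N⟦j⟧)) Q) = 0) {s : 𝟙_ C ⟶ N}
    (hs : R.H.map s = 0) : s = 0 := by
  have hks : Killed R s := killed_of_unit hs
  have hfix : ∀ (Y : C) (s : 𝟙_ C ⟶ Y), s ≫ pev (F.φ Y) Q = s := by
    intro Y s
    have h1 : F.φ (𝟙_ C) = 𝟙 _ := F.unit
    rw [comp_pev s _ _ (F.φ_natural s), h1, pev_id, hQ1, one_smul, Category.id_comp]
  obtain ⟨Y, V, hY, hV, i, p, d, hT⟩ := t.exists_triangle N 0 1 rfl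
  have hY1 : t.IsLE Y 0 := ⟨hY⟩
  have hV1 : t.IsGE V 1 := ⟨hV⟩
  obtain ⟨sY, rfl⟩ := ce2 hT s (t.zero_of_isLE_of_isGE _ 0 1 (by omega) hu.1 hV1)
  have hm : ∀ j : ℤ, j ≤ 0 → Mono (R.H.map (i⟦j⟧')) := fun j hj =>
    mono_of_isZero R hT j (he.isGE hV1 _ (by omega))
  have hkY : Killed R sY := by
    intro j
    by_cases hj : j = 0
    · subst hj
      have := hm 0 le_rfl
      rw [← cancel_mono (R.H.map (i⟦(0 : ℤ)⟧')), zero_comp, ← Functor.map_comp,
        ← Functor.map_comp, hks 0]
    · exact (deg_unit (R := R) j hj).eq_of_src _ _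
  obtain ⟨Y', G, hY', hG, i', p', d', hT'⟩ := t.exists_triangle Y (-1) 0 (by omega)
  have hY1' : t.IsLE Y' (-1) := ⟨hY'⟩
  have hG1 : t.IsGE G 0 := ⟨hG⟩
  have hG2 : t.IsLE G 0 := isLE3 hT' (t.isLE_of_le Y' (-1) (0 + 1)) hY1
  have h1 : sY ≫ p' = 0 := faithful_heart ht he hu hid hu ⟨hG2, hG1⟩ _
    (map_zero_of_killed (hkY.comp_right p'))
  obtain ⟨s', rfl⟩ := ce2 hT' sY h1
  have hk : Killed R (pev (F.φ Y') Q) := by
    intro j
    by_cases hj : j < 0
    · have h2 := hm j (by omega)
      have h3 : Mono (R.H.map (i'⟦j⟧')) := mono_of_isZero R hT' j (he.isGE hG1 _ (by omega))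
      rw [← cancel_mono (R.H.map (i'⟦j⟧')), ← cancel_mono (R.H.map (i⟦j⟧')), zero_comp, zero_comp,
        ← Functor.map_comp, ← Functor.map_comp, ← Functor.map_comp, ← Functor.map_comp]
      have h4 : (pev (F.φ Y') Q ≫ i') ≫ i = (i' ≫ i) ≫ pev (F.φ N) Q := by
        rw [Category.assoc]
        exact (comp_pev (i' ≫ i) _ _ (F.φ_natural _) Q).symm
      rw [h4, Functor.map_comp, Functor.map_comp, map_pev, ← F.φ_shift, hN j hj, comp_zero]
    · exact (he.isLE hY1' j (by omega)).eq_of_src _ _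
  rw [zero_of_fixed ht he hu hid hle hge hk (hfix _ s'), zero_comp, zero_comp]

end

section

variable {C : Type u} [Category.{v} C] [Preadditive C] [HasZeroObject C] [HasShift C ℤ]
  [∀ n : ℤ, (shiftFunctor C n).Additive] [Pretriangulated C] [IsTriangulated C]
  [MonoidalCategory C] [SymmetricCategory C] [TensorTriangulated C] [MonoidalPreadditive C]
  [RightRigidCategory C] [Linear ℚ C]

/-- A polynomial which projects to the cohomology of degree zero. -/
lemma exists_poly {E : Type w} [Field E] {R : Realisation C E} {W : ObjectProperty C} {q : ℝ}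
    (F : Frobenius R W q) {M : C} (hM : W M) : ∃ Q : Polynomial ℚ, Q.eval 1 = 1 ∧
      ∀ i : ℤ, i ≠ 0 → R.H.map (pev (F.φ (M⟦i⟧)) Q) = 0 := by
  choose P hP0 hP hP' using F.pure M hM
  obtain ⟨N, hN⟩ := R.bounded M
  let I : Finset ℤ := (Finset.Icc (-(N : ℤ)) N).erase 0
  have hne : ∀ i ∈ I, (P i).eval 1 ≠ 0 := by
    intro i hi h
    have h1 := hP i 1 (by
      rw [← map_one (algebraMap ℚ ℂ), Polynomial.aeval_algebraMap_apply, Polynomial.coe_aeval_eq_eval,
        h, map_zero])
    have h2 : q ^ (-(i : ℝ) / 2) = q ^ (-((0 : ℤ) : ℝ) / 2) := by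
      rw [← h1]
      simp
    exact rpow_ne F.one_lt (Finset.ne_of_mem_erase hi) h2
  refine ⟨∏ i ∈ I, (Polynomial.C ((P i).eval 1)⁻¹ * P i), ?_, ?_⟩
  · simp only [Polynomial.eval_prod, Polynomial.eval_mul, Polynomial.eval_C]
    exact Finset.prod_eq_one fun i hi => inv_mul_cancel₀ (hne i hi)
  · intro i hi
    by_cases hiI : i ∈ I
    · have h2 : (∏ i ∈ I, (Polynomial.C ((P i).eval 1)⁻¹ * P i)) =
          P i * (Polynomial.C ((P i).eval 1)⁻¹ *
            ∏ j ∈ I.erase i, (Polynomial.C ((P j).eval 1)⁻¹ * P j)) := by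
        rw [← Finset.mul_prod_erase I _ hiI]
        ring
      rw [h2, pev_mul, Functor.map_comp]
      have h3 : R.H.map (pev (F.φ (M⟦i⟧)) (P i)) = 0 := hP' i
      rw [h3, comp_zero]
    · have h1 : IsZero (R.H.obj (M⟦i⟧)) := by
        apply hN
        simp only [I, Finset.mem_erase, Finset.mem_Icc, not_and, not_le] at hiI
        have := hiI hi
        omega
      exact h1.eq_of_src _ _

/-- If there is a motivic t-structure over a finite field then rational and numerical equivalence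
coincide, and Parshin's conjecture holds. -/
theorem ratNum_parshin_of_motivic {Λ : Type*} {E : Λ → Type w} [∀ l, Field (E l)]
    {R : ∀ l, Realisation C (E l)} {W : ObjectProperty C} (hW : IsChowClass W) {q : ℝ} (l : Λ)
    (F : Frobenius (R l) W q) (hid : ∀ e : 𝟙_ C ⟶ 𝟙_ C, e ≫ e = e → e = 0 ∨ e = 𝟙 _)
    {t : TStructure C} (h : IsMotivic t R) : RatNum W ∧ Parshin W := by
  have ht : TensorCompat t := ⟨h.tensor_le, h.tensor_ge⟩
  have hu : Hrt t (𝟙_ C) := unit_hrt ht h.nondeg_le h.nondeg_ge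
  have he : TExact t (R l) := ⟨h.exact_le l, h.exact_ge l⟩
  have hD := homNum_of_conservative hW (conservative_of_motivic hid h l) F.lifts
  constructor
  · intro M hM s hs
    obtain ⟨Q, hQ1, hQ⟩ := exists_poly F hM
    refine hD M hM s fun h0 => hs ?_
    exact zero_of_frob ht he hu hid h.nondeg_le h.nondeg_ge F hQ1 (fun j hj => hQ j hj.ne) h0
  · intro M hM n hn s
    obtain ⟨Q, hQ1, hQ⟩ := exists_poly F hM
    refine zero_of_frob ht he hu hid h.nondeg_le h.nondeg_ge F hQ1 (fun j hj => ?_)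
      (map_zero_of_weight F hM hn.ne s)
    let e := (shiftFunctorAdd' C n j (n + j) rfl).app M
    have h1 : pev (F.φ (M⟦n⟧⟦j⟧)) Q = e.inv ≫ pev (F.φ (M⟦n + j⟧)) Q ≫ e.hom := by
      have h2 := comp_pev e.hom _ _ (F.φ_natural e.hom) Q
      rw [← h2]
      exact (Iso.inv_hom_id_assoc e _).symm
    rw [h1, Functor.map_comp, Functor.map_comp, hQ (n + j) (by omega), zero_comp, comp_zero]

end

end Pool.Agent.N209.FF
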