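import Pool.Agent.N209.FF.Pair

/-!
# Non-degeneracy of the numerical pairing on all objects
-/

set_option autoImplicit false
set_option linter.unusedSectionVars false
set_option linter.unusedSimpArgs false
set_option backward.isDefEq.respectTransparency false
set_option backward.defeqAttrib.useBackward true

open CategoryTheory Limits MonoidalCategory Pretriangulated Triangulated ObjectProperty

namespace Pool.Agent.N209.FF

open Pool.Agent.Y116.MT Pool.Agent.N209.MT Pool.Agent.V1178.MT Pool.Agent.N209.CD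

universe v u w

section

variable {C : Type u} [Category.{v} C] [Preadditive C] [HasShift C ℤ]
  [∀ n : ℤ, (shiftFunctor C n).Additive]

lemma LN.unshift {U X : C} (k : ℤ) (h : LN (U⟦k⟧) (X⟦k⟧)) : LN U X := by
  intro s hs
  obtain ⟨r, hr⟩ := h (s⟦k⟧') (fun h0 => hs ((shiftFunctor C k).map_injective (by
    rw [h0, Functor.map_zero])))
  obtain ⟨r', rfl⟩ := (shiftFunctor C k).map_surjective r
  exact ⟨r', fun h0 => hr (by rw [← Functor.map_comp, h0, Functor.map_zero])⟩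

lemma RN.unshift {U X : C} (k : ℤ) (h : RN (U⟦k⟧) (X⟦k⟧)) : RN U X := by
  intro s hs
  obtain ⟨r, hr⟩ := h (s⟦k⟧') (fun h0 => hs ((shiftFunctor C k).map_injective (by
    rw [h0, Functor.map_zero])))
  obtain ⟨r', rfl⟩ := (shiftFunctor C k).map_surjective r
  exact ⟨r', fun h0 => hr (by rw [← Functor.map_comp, h0, Functor.map_zero])⟩

end

section

variable {C : Type u} [Category.{v} C] [Preadditive C] [HasZeroObject C] [HasShift C ℤ]
  [∀ n : ℤ, (shiftFunctor C n).Additive] [Pretriangulated C] [IsTriangulated C]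
  [MonoidalCategory C] [SymmetricCategory C] [TensorTriangulated C] [MonoidalPreadditive C]
  [RightRigidCategory C] [Linear ℚ C] {E : Type w} [Field E] {R : Realisation C E}
  {W : ObjectProperty C}

lemma end_shift (hQ : ∀ e : 𝟙_ C ⟶ 𝟙_ C, ∃ q : ℚ, e = q • 𝟙 _) (n : ℤ)
    (e : (𝟙_ C)⟦n⟧ ⟶ (𝟙_ C)⟦n⟧) : ∃ q : ℚ, e = q • 𝟙 _ := by
  obtain ⟨e', rfl⟩ := (shiftFunctor C n).map_surjective e
  obtain ⟨q, rfl⟩ := hQ e'
  exact ⟨q, by rw [Functor.map_smul, CategoryTheory.Functor.map_id]⟩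

include R in
lemma id_shift_ne (n : ℤ) : 𝟙 ((𝟙_ C)⟦n⟧) ≠ 0 := by
  intro h
  apply not_isZero_unit R
  rw [IsZero.iff_id_eq_zero]
  apply (shiftFunctor C n).map_injective
  rw [CategoryTheory.Functor.map_id, h, Functor.map_zero]

lemma H_shift_ne (n : ℤ) : ¬ IsZero (R.H.obj ((𝟙_ C)⟦n⟧⟦-n⟧)) := fun h =>
  not_isZero_H_unit R (h.of_iso (R.H.mapIso (shiftShiftNeg (𝟙_ C) n).symm))

include R in
lemma exists_kappa (hQ : ∀ e : 𝟙_ C ⟶ 𝟙_ C, ∃ q : ℚ, e = q • 𝟙 _) (n : ℤ) :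
    ∃ κ : ((𝟙_ C)⟦n⟧ ⟶ (𝟙_ C)⟦n⟧) →ₗ[ℚ] ℚ, ∀ e, e = κ e • 𝟙 ((𝟙_ C)⟦n⟧) :=
  exists_scalar (end_shift hQ n) (id_shift_ne (R := R) n)

/-- Right non-degeneracy at the unit from left non-degeneracy for the dual. -/
lemma right_of_dual {M : C}
    (h : ∀ s : 𝟙_ C ⟶ 𝟙_ C ⊗ Mᘁ, s ≠ 0 → ∃ r : 𝟙_ C ⊗ (Mᘁ : C) ⟶ 𝟙_ C, s ≫ r ≠ 0) :
    RN (𝟙_ C) M := by
  intro r hr
  obtain ⟨t, ht⟩ := h (nm r) (fun h0 => hr (eq_zero_of_nm r h0))
  refine ⟨η_ M Mᘁ ≫ (M ◁ ((λ_ (Mᘁ : C)).inv ≫ t)) ≫ (ρ_ M).hom, fun h0 => ht ?_⟩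
  rw [← h0, nm]
  simp only [Category.assoc]
  rw [← rightUnitor_naturality, whisker_exchange_assoc]
  have h1 : 𝟙_ C ◁ ((λ_ (Mᘁ : C)).inv ≫ t) ≫ (ρ_ (𝟙_ C)).hom = t := by
    rw [← unitors_equal, leftUnitor_naturality]
    simp
  rw [h1]

variable (hQ : ∀ e : 𝟙_ C ⟶ 𝟙_ C, ∃ q : ℚ, e = q • 𝟙 _) (hW : IsChowClass W) (hr : RatNum W)
  (hp : Parshin W)

include hW hr hp

lemma base_left {M : C} (hM : W M) (j : ℤ) : LN ((𝟙_ C)⟦j⟧) M := by
  by_cases hj : j = 0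
  · subst hj
    exact LN.of_iso ((shiftFunctorZero C ℤ).app (𝟙_ C)).symm (hr M hM)
  · intro s hs
    exfalso
    apply hs
    apply (shiftFunctor C (-j)).map_injective
    rw [Functor.map_zero, ← cancel_epi (shiftShiftNeg (𝟙_ C) j).inv, comp_zero]
    rcases lt_or_gt_of_ne hj with h | h
    · exact hW.orth _ _ hW.unit hM (-j) (by omega) _
    · exact hp M hM (-j) (by omega) _

lemma base_right {M : C} (hM : W M) (j : ℤ) : RN ((𝟙_ C)⟦j⟧) M := by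
  have hM' : W (𝟙_ C ⊗ (Mᘁ : C)) := hW.tensor _ _ hW.unit (hW.dual _ hM)
  by_cases hj : j = 0
  · subst hj
    exact RN.of_iso ((shiftFunctorZero C ℤ).app (𝟙_ C)).symm (right_of_dual (hr _ hM'))
  · intro r hr0
    exfalso
    apply hr0
    rcases lt_or_gt_of_ne hj with h | h
    · apply eq_zero_of_nm
      rw [← cancel_mono (lShift (𝟙_ C) (Mᘁ : C) j).hom, zero_comp]
      exact hp _ hM' j h _
    · exact hW.orth _ _ hM hW.unit j h _

include hQ R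

/-- If rational and numerical equivalence coincide and Parshin's conjecture holds then the
numerical pairing is non-degenerate on all objects. -/
theorem nondeg_all (X : C) (n : ℤ) : LN ((𝟙_ C)⟦n⟧) X ∧ RN ((𝟙_ C)⟦n⟧) X := by
  have key : ec (degs W (fun _ => True)) ≤
      (fun X => ∀ n : ℤ, LN ((𝟙_ C)⟦n⟧) X ∧ RN ((𝟙_ C)⟦n⟧) X) := by
    refine ec_le ?_ ?_
    · rintro X ⟨k, -, hk⟩ n
      have e : (𝟙_ C)⟦n⟧⟦k⟧ ≅ (𝟙_ C)⟦n + k⟧ := ((shiftFunctorAdd C n k).app (𝟙_ C)).symm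
      exact ⟨LN.unshift k ((base_left hW hr hp hk (n + k)).of_iso e.symm),
        RN.unshift k ((base_right hW hr hp hk (n + k)).of_iso e.symm)⟩
    · intro X Y Z f g h hT hX hZ n
      constructor
      · obtain ⟨κ, hκ⟩ := exists_kappa (R := R) hQ n
        have := finite_left (R := R) hκ (H_shift_ne n) (hX n).1
        exact LN.ext hT hκ (hX n).1 (hZ n).1 ((hZ (n + 1)).2.of_iso
          ((shiftFunctorAdd C n 1).app (𝟙_ C)))
      · have e : (𝟙_ C)⟦n - 1⟧⟦(1 : ℤ)⟧ ≅ (𝟙_ C)⟦n⟧ :=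
          ((shiftFunctorAdd' C (n - 1) 1 n (by omega)).app (𝟙_ C)).symm
        obtain ⟨κ, hκ⟩ : ∃ κ : ((𝟙_ C)⟦n - 1⟧⟦(1 : ℤ)⟧ ⟶ (𝟙_ C)⟦n - 1⟧⟦(1 : ℤ)⟧) →ₗ[ℚ] ℚ,
            ∀ e, e = κ e • 𝟙 ((𝟙_ C)⟦n - 1⟧⟦(1 : ℤ)⟧) := by
          refine exists_scalar (fun x => ?_) ?_
          · obtain ⟨x', rfl⟩ := (shiftFunctor C (1 : ℤ)).map_surjective x
            obtain ⟨q, rfl⟩ := end_shift hQ (n - 1) x'
            exact ⟨q, by rw [Functor.map_smul, CategoryTheory.Functor.map_id]⟩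
          · intro h0
            apply id_shift_ne (R := R) (C := C) (n - 1)
            apply (shiftFunctor C (1 : ℤ)).map_injective
            rw [CategoryTheory.Functor.map_id, h0, Functor.map_zero]
        have hH : ¬ IsZero (R.H.obj ((𝟙_ C)⟦n - 1⟧⟦(1 : ℤ)⟧⟦-n⟧)) := fun h0 =>
          H_shift_ne (R := R) (C := C) n
            (h0.of_iso (R.H.mapIso ((shiftFunctor C (-n)).mapIso e.symm)))
        have hZ' : RN ((𝟙_ C)⟦n - 1⟧⟦(1 : ℤ)⟧) Z := (hZ n).2.of_iso e.symm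
        have := finite_right (R := R) hκ hH hZ'
        exact (RN.ext hT hκ ((hX n).2.of_iso e.symm) hZ' (hX (n - 1)).1).of_iso e
  obtain ⟨Y, hY, ⟨r⟩⟩ := hW.neg.retract_ec hW.generates X
  exact ⟨LN.of_retract r (key Y hY n).1, RN.of_retract r (key Y hY n).2⟩

/-- Rational and numerical equivalence coincide for all objects. -/
theorem ratNum_all (X : C) (s : 𝟙_ C ⟶ X) (hs : s ≠ 0) : ∃ r : X ⟶ 𝟙_ C, s ≫ r ≠ 0 :=
  LN.of_iso ((shiftFunctorZero C ℤ).app (𝟙_ C)) (nondeg_all (R := R) hQ hW hr hp X 0).1 s hs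

end

end Pool.Agent.N209.FF
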