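import Pool.Agent.N209.FF.Defs
import Pool.Agent.N209.CD.Frob

/-!
# The numerical pairing on all objects
-/

set_option autoImplicit false
set_option linter.unusedSectionVars false
set_option linter.unusedSimpArgs false
set_option backward.isDefEq.respectTransparency false
set_option backward.defeqAttrib.useBackward true

open CategoryTheory Limits MonoidalCategory Pretriangulated Triangulated ObjectProperty

namespace Pool.Agent.N209.FF

open Pool.Agent.Y116.MT Pool.Agent.N209.MT Pool.Agent.V1178.MT Pool.Agent.N209.CD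

universe v u w

section Nondeg

variable {C : Type u} [Category.{v} C] [Preadditive C]

/-- Left non-degeneracy of the pairing of `Hom(U, X)` and `Hom(X, U)`. -/
def LN (U X : C) : Prop := ∀ s : U ⟶ X, s ≠ 0 → ∃ r : X ⟶ U, s ≫ r ≠ 0

/-- Right non-degeneracy of the pairing of `Hom(U, X)` and `Hom(X, U)`. -/
def RN (U X : C) : Prop := ∀ r : X ⟶ U, r ≠ 0 → ∃ s : U ⟶ X, s ≫ r ≠ 0

lemma LN.of_iso {U U' X : C} (e : U ≅ U') (h : LN U X) : LN U' X := by
  intro s hs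
  obtain ⟨r, hr⟩ := h (e.hom ≫ s) (by
    intro h0
    apply hs
    rw [← cancel_epi e.hom, h0, comp_zero])
  refine ⟨r ≫ e.hom, fun h0 => hr ?_⟩
  rw [← cancel_mono e.hom, zero_comp, Category.assoc, Category.assoc, h0, comp_zero]

lemma RN.of_iso {U U' X : C} (e : U ≅ U') (h : RN U X) : RN U' X := by
  intro r hr
  obtain ⟨s, hs⟩ := h (r ≫ e.inv) (by
    intro h0
    apply hr
    rw [← cancel_mono e.inv, h0, zero_comp])
  refine ⟨e.inv ≫ s, fun h0 => hs ?_⟩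
  rw [← cancel_epi e.inv, comp_zero, ← Category.assoc, ← Category.assoc, h0, zero_comp]

lemma LN.of_retract {U X Y : C} (r : Retract X Y) (h : LN U Y) : LN U X := by
  intro s hs
  obtain ⟨t, ht⟩ := h (s ≫ r.i) (by
    intro h0
    apply hs
    have : s = (s ≫ r.i) ≫ r.r := by simp
    rw [this, h0, zero_comp])
  exact ⟨r.i ≫ t, by rwa [← Category.assoc]⟩

lemma RN.of_retract {U X Y : C} (r : Retract X Y) (h : RN U Y) : RN U X := by
  intro s hs
  obtain ⟨t, ht⟩ := h (r.r ≫ s) (by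
    intro h0
    apply hs
    have : s = r.i ≫ r.r ≫ s := by simp
    rw [this, h0, comp_zero])
  exact ⟨t ≫ r.r, by rwa [Category.assoc]⟩

end Nondeg

section LinAlg

variable {V V' : Type*} [AddCommGroup V] [Module ℚ V] [AddCommGroup V'] [Module ℚ V']
  (B : V →ₗ[ℚ] V' →ₗ[ℚ] ℚ) (hB : ∀ v, v ≠ 0 → ∃ v', B v v' ≠ 0)

include hB

/-- The dual family of a linearly independent family. -/
lemma lin_dual {n : ℕ} (v : Fin n → V) (hv : LinearIndependent ℚ v) :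
    ∃ v' : Fin n → V', ∀ i j, B (v i) (v' j) = if i = j then (1 : ℚ) else 0 := by
  classical
  let Φ : V' →ₗ[ℚ] (Fin n → ℚ) := LinearMap.pi fun i => B (v i)
  have hsurj : LinearMap.range Φ = ⊤ := by
    by_contra h
    obtain ⟨f, hf, hf'⟩ := Submodule.exists_le_ker_of_lt_top _ (lt_top_iff_ne_top.2 h)
    apply hf
    have h1 : ∑ i, f (Pi.single i 1) • v i = 0 := by
      by_contra h2
      obtain ⟨r, hr⟩ := hB _ h2
      apply hr
      have h3 : f (Φ r) = 0 := hf' (LinearMap.mem_range_self Φ r)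
      have h4 : f (Φ r) = ∑ i, f (Pi.single i 1) * B (v i) r := by
        have h5 : Φ r = ∑ i, B (v i) r • (Pi.single i (1 : ℚ) : Fin n → ℚ) := by
          ext j
          simp [Φ, Finset.sum_apply, Pi.single_apply]
        rw [h5, map_sum]
        refine Finset.sum_congr rfl fun i _ => ?_
        rw [map_smul, smul_eq_mul, mul_comm]
      rw [h4] at h3
      rw [map_sum, LinearMap.sum_apply, ← h3]
      refine Finset.sum_congr rfl fun i _ => ?_
      rw [map_smul, LinearMap.smul_apply, smul_eq_mul]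
    have h2 := Fintype.linearIndependent_iff.1 hv _ h1
    refine LinearMap.pi_ext' fun i => LinearMap.ext_ring ?_
    simpa using h2 i
  choose r hr using fun j : Fin n => LinearMap.range_eq_top.1 hsurj (Pi.single j 1)
  refine ⟨r, fun i j => ?_⟩
  have h1 := congrFun (hr j) i
  simp only [Φ, LinearMap.pi_apply] at h1
  rw [h1, Pi.single_apply]

/-- Each linear functional is represented. -/
lemma lin_repr [Module.Finite ℚ V] (φ : V →ₗ[ℚ] ℚ) : ∃ v' : V', ∀ v, B v v' = φ v := by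
  classical
  let b := Module.finBasis ℚ V
  obtain ⟨v', hv'⟩ := lin_dual B hB b b.linearIndependent
  refine ⟨∑ j, φ (b j) • v' j, fun v => ?_⟩
  have h1 : ∀ i, B (b i) (∑ j, φ (b j) • v' j) = φ (b i) := by
    intro i
    simp [map_sum, hv']
  have h2 : B.flip (∑ j, φ (b j) • v' j) = φ := by
    refine b.ext fun i => ?_
    rw [LinearMap.flip_apply, h1]
  exact LinearMap.congr_fun h2 v

end LinAlg

section

variable {C : Type u} [Category.{v} C] [Preadditive C] [Linear ℚ C]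

lemma exists_scalar {U : C} (hU : ∀ e : U ⟶ U, ∃ q : ℚ, e = q • 𝟙 U) (hne : 𝟙 U ≠ 0) :
    ∃ κ : (U ⟶ U) →ₗ[ℚ] ℚ, ∀ e, e = κ e • 𝟙 U := by
  choose c hc using hU
  have hc' : ∀ a : ℚ, c (a • 𝟙 U) = a := by
    intro a
    have h1 := hc (a • 𝟙 U)
    have h2 : (a - c (a • 𝟙 U)) • 𝟙 U = 0 := by rw [sub_smul, ← h1, sub_self]
    rcases smul_eq_zero.1 h2 with h3 | h3
    · exact (sub_eq_zero.1 h3).symm
    · exact absurd h3 hne
  exact ⟨{ toFun := c
           map_add' := by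
             intro a b
             obtain ⟨a', ha⟩ : ∃ a', a = a' • 𝟙 U := ⟨_, hc a⟩
             obtain ⟨b', hb⟩ : ∃ b', b = b' • 𝟙 U := ⟨_, hc b⟩
             rw [ha, hb, ← add_smul, hc', hc', hc']
           map_smul' := by
             intro m a
             obtain ⟨a', ha⟩ : ∃ a', a = a' • 𝟙 U := ⟨_, hc a⟩
             rw [ha, smul_smul, hc', hc']
             rfl }, hc⟩

/-- The pairing. -/
noncomputable def numPair {U : C} (κ : (U ⟶ U) →ₗ[ℚ] ℚ) (X : C) :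
    (U ⟶ X) →ₗ[ℚ] (X ⟶ U) →ₗ[ℚ] ℚ :=
  LinearMap.mk₂ ℚ (fun s r => κ (s ≫ r)) (by simp) (by simp) (by simp) (by simp)

lemma numPair_apply {U : C} (κ : (U ⟶ U) →ₗ[ℚ] ℚ) {X : C} (s : U ⟶ X) (r : X ⟶ U) :
    numPair κ X s r = κ (s ≫ r) := rfl

variable {U : C} {κ : (U ⟶ U) →ₗ[ℚ] ℚ} (hκ : ∀ e, e = κ e • 𝟙 U)

include hκ

lemma kappa_eq' {X : C} {s : U ⟶ X} {r : X ⟶ U} {c : ℚ} (h : κ (s ≫ r) = c) :
    s ≫ r = c • 𝟙 U := by
  rw [hκ (s ≫ r), h]

lemma LN.pairing {X : C} (h : LN U X) (s : U ⟶ X) (hs : s ≠ 0) : ∃ r, numPair κ X s r ≠ 0 := by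
  obtain ⟨r, hr⟩ := h s hs
  refine ⟨r, fun h0 => hr ?_⟩
  rw [numPair_apply] at h0
  rw [hκ (s ≫ r), h0, zero_smul]

lemma RN.pairing {X : C} (h : RN U X) (r : X ⟶ U) (hr : r ≠ 0) :
    ∃ s, (numPair κ X).flip r s ≠ 0 := by
  obtain ⟨s, hs⟩ := h r hr
  refine ⟨s, fun h0 => hs ?_⟩
  rw [LinearMap.flip_apply, numPair_apply] at h0
  rw [hκ (s ≫ r), h0, zero_smul]

end

section

variable {C : Type u} [Category.{v} C] [Preadditive C] [HasZeroObject C] [HasShift C ℤ]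
  [∀ n : ℤ, (shiftFunctor C n).Additive] [Pretriangulated C] [MonoidalCategory C]
  [SymmetricCategory C] [TensorTriangulated C]
  {E : Type w} [Field E] {R : Realisation C E}

/-- Families with a dual family have linearly independent realisations. -/
lemma indep_of_dual {U X : C} {m : ℤ} (hm : ¬ IsZero (R.H.obj (U⟦m⟧))) {ι : Type*}
    (s : ι → (U ⟶ X)) (r : ι → (X ⟶ U)) (h1 : ∀ i, s i ≫ r i = 𝟙 U)
    (h2 : ∀ i j, i ≠ j → s i ≫ r j = 0) :
    LinearIndependent E (fun i => (R.H.map ((s i)⟦m⟧')).hom) := by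
  classical
  rw [linearIndependent_iff']
  intro t g hg i hi
  have h3 : (R.H.map ((r i)⟦m⟧')).hom ∘ₗ (∑ j ∈ t, g j • (R.H.map ((s j)⟦m⟧')).hom) = 0 := by
    rw [hg, LinearMap.comp_zero]
  have h4 : ∀ j ∈ t, (R.H.map ((r i)⟦m⟧')).hom ∘ₗ (g j • (R.H.map ((s j)⟦m⟧')).hom) =
      if j = i then g i • LinearMap.id else 0 := by
    intro j _
    rw [LinearMap.comp_smul, ← ModuleCat.hom_comp, ← Functor.map_comp, ← Functor.map_comp]
    split_ifs with hj
    · subst hj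
      rw [h1, CategoryTheory.Functor.map_id, CategoryTheory.Functor.map_id]
      rfl
    · rw [h2 j i hj, Functor.map_zero, Functor.map_zero, ModuleCat.hom_zero, smul_zero]
  have h5 : (R.H.map ((r i)⟦m⟧')).hom ∘ₗ (∑ j ∈ t, g j • (R.H.map ((s j)⟦m⟧')).hom) =
      ∑ j ∈ t, (R.H.map ((r i)⟦m⟧')).hom ∘ₗ (g j • (R.H.map ((s j)⟦m⟧')).hom) := by
    ext x
    simp [LinearMap.sum_apply, map_sum]
  rw [h5, Finset.sum_congr rfl h4, Finset.sum_ite_eq' t i] at h3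
  rw [if_pos hi] at h3
  by_contra hgi
  apply hm
  rw [ModuleCat.isZero_iff_subsingleton]
  refine ⟨fun x y => ?_⟩
  have h6 : ∀ x : R.H.obj (U⟦m⟧), x = 0 := by
    intro x
    have h7 := LinearMap.congr_fun h3 x
    rw [LinearMap.smul_apply, LinearMap.id_apply, LinearMap.zero_apply] at h7
    exact (smul_eq_zero.1 h7).resolve_left hgi
  rw [h6 x, h6 y]

variable [Linear ℚ C] {U : C} {κ : (U ⟶ U) →ₗ[ℚ] ℚ} (hκ : ∀ e, e = κ e • 𝟙 U)

include hκ

lemma kappa_eq {X : C} {s : U ⟶ X} {r : X ⟶ U} {c : ℚ} (h : numPair κ X s r = c) :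
    s ≫ r = c • 𝟙 U := by
  rw [hκ (s ≫ r), ← h]
  rfl

include R in
lemma finite_left {m : ℤ} (hm : ¬ IsZero (R.H.obj (U⟦m⟧))) {X : C} (hX : LN U X) :
    Module.Finite ℚ (U ⟶ X) := by
  have := R.finite (U⟦m⟧)
  have := R.finite (X⟦m⟧)
  rw [← Module.rank_lt_aleph0_iff]
  refine lt_of_le_of_lt (rank_le (n := Module.finrank E (R.H.obj (U⟦m⟧) →ₗ[E] R.H.obj (X⟦m⟧)))
    fun t ht => ?_) (Cardinal.natCast_lt_aleph0)
  have e := t.equivFin
  obtain ⟨r, hr⟩ := lin_dual (numPair κ X) (hX.pairing hκ) (fun i => (e.symm i : U ⟶ X))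
    (ht.comp _ e.symm.injective)
  have h1 := indep_of_dual (R := R) hm (fun i => (e.symm i : U ⟶ X)) r (fun i => by
    rw [kappa_eq hκ (hr i i), if_pos rfl, one_smul]) (fun i j hij => by
    rw [kappa_eq hκ (hr i j), if_neg hij, zero_smul])
  simpa using h1.fintype_card_le_finrank

include R in
lemma finite_right {m : ℤ} (hm : ¬ IsZero (R.H.obj (U⟦m⟧))) {X : C} (hX : RN U X) :
    Module.Finite ℚ (X ⟶ U) := by
  have := R.finite (U⟦m⟧)
  have := R.finite (X⟦m⟧)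
  rw [← Module.rank_lt_aleph0_iff]
  refine lt_of_le_of_lt (rank_le (n := Module.finrank E (R.H.obj (U⟦m⟧) →ₗ[E] R.H.obj (X⟦m⟧)))
    fun t ht => ?_) (Cardinal.natCast_lt_aleph0)
  have e := t.equivFin
  obtain ⟨s, hs⟩ := lin_dual (numPair κ X).flip (hX.pairing hκ) (fun i => (e.symm i : X ⟶ U))
    (ht.comp _ e.symm.injective)
  have h1 := indep_of_dual (R := R) hm s (fun i => (e.symm i : X ⟶ U)) (fun i => by
    rw [kappa_eq hκ (hs i i), if_pos rfl, one_smul]) (fun i j hij => by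
    rw [kappa_eq hκ (hs j i), if_neg (Ne.symm hij), zero_smul])
  simpa using h1.fintype_card_le_finrank

end



section Ext

variable {C : Type u} [Category.{v} C] [Preadditive C] [HasZeroObject C] [HasShift C ℤ]
  [∀ n : ℤ, (shiftFunctor C n).Additive] [Pretriangulated C] [Linear ℚ C]
  {X Y Z : C} {f : X ⟶ Y} {g : Y ⟶ Z} {h : Z ⟶ X⟦(1 : ℤ)⟧}
  (hT : Triangle.mk f g h ∈ distTriang C) {U : C}

include hT

lemma LN.ext {κ : (U ⟶ U) →ₗ[ℚ] ℚ} (hκ : ∀ e, e = κ e • 𝟙 U) (hX : LN U X)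
    [Module.Finite ℚ (U ⟶ X)] (hZ : LN U Z) (hZ' : RN (U⟦(1 : ℤ)⟧) Z) : LN U Y := by
  intro s hs
  by_cases hsg : s ≫ g = 0
  swap
  · obtain ⟨r, hr⟩ := hZ _ hsg
    exact ⟨g ≫ r, by rwa [← Category.assoc]⟩
  obtain ⟨s', rfl⟩ := ce2 hT s hsg
  let V : Submodule ℚ (U ⟶ X) :=
    { carrier := {v | ∃ z : U⟦(1 : ℤ)⟧ ⟶ Z, z ≫ h = v⟦(1 : ℤ)⟧'}
      add_mem' := by
        rintro a b ⟨z, hz⟩ ⟨z', hz'⟩
        exact ⟨z + z', by rw [Preadditive.add_comp, hz, hz', Functor.map_add]⟩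
      zero_mem' := ⟨0, by rw [zero_comp, Functor.map_zero]⟩
      smul_mem' := by
        rintro c a ⟨z, hz⟩
        exact ⟨c • z, by rw [Linear.smul_comp, hz, Functor.map_smul]⟩ }
  have hsV : s' ∉ V := by
    rintro ⟨z, hz⟩
    apply hs
    apply (shiftFunctor C (1 : ℤ)).map_injective
    rw [Functor.map_comp, ← hz, Category.assoc, comp31 hT, comp_zero, Functor.map_zero]
  obtain ⟨φ, hφ, hφV⟩ := Submodule.exists_le_ker_of_notMem hsV
  obtain ⟨r, hr⟩ := lin_repr (numPair κ X) (hX.pairing hκ) φ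
  have h1 : h ≫ r⟦(1 : ℤ)⟧' = 0 := by
    by_contra h2
    obtain ⟨z, hz⟩ := hZ' _ h2
    apply hz
    obtain ⟨v, hv⟩ := (shiftFunctor C (1 : ℤ)).map_surjective (z ≫ h)
    rw [← Category.assoc, ← hv, ← Functor.map_comp, kappa_eq' hκ (hr v)]
    have h3 : φ v = 0 := hφV ⟨z, hv.symm⟩
    rw [h3, zero_smul, Functor.map_zero]
  obtain ⟨r', hr'⟩ := ye1' hT r h1
  refine ⟨r', ?_⟩
  rw [Category.assoc, ← hr', kappa_eq' hκ (hr s')]
  intro h2
  rcases smul_eq_zero.1 h2 with h3 | h3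
  · exact hφ h3
  · apply hs
    rw [← Category.id_comp (s' ≫ f), h3, zero_comp]

lemma RN.ext {κ : (U⟦(1 : ℤ)⟧ ⟶ U⟦(1 : ℤ)⟧) →ₗ[ℚ] ℚ} (hκ : ∀ e, e = κ e • 𝟙 (U⟦(1 : ℤ)⟧))
    (hX : RN (U⟦(1 : ℤ)⟧) X) (hZ : RN (U⟦(1 : ℤ)⟧) Z) [Module.Finite ℚ (Z ⟶ U⟦(1 : ℤ)⟧)]
    (hX' : LN U X) : RN (U⟦(1 : ℤ)⟧) Y := by
  intro r hr0
  by_cases hfr : f ≫ r = 0
  swap
  · obtain ⟨s, hs⟩ := hX _ hfr
    exact ⟨s ≫ f, by rwa [Category.assoc]⟩
  obtain ⟨r', rfl⟩ := ye2 hT r hfr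
  let V : Submodule ℚ (Z ⟶ U⟦(1 : ℤ)⟧) :=
    { carrier := {v | ∃ x : X⟦(1 : ℤ)⟧ ⟶ U⟦(1 : ℤ)⟧, h ≫ x = v}
      add_mem' := by
        rintro a b ⟨z, hz⟩ ⟨z', hz'⟩
        exact ⟨z + z', by rw [Preadditive.comp_add, hz, hz']⟩
      zero_mem' := ⟨0, by rw [comp_zero]⟩
      smul_mem' := by
        rintro c a ⟨z, hz⟩
        exact ⟨c • z, by rw [Linear.comp_smul, hz]⟩ }
  have hrV : r' ∉ V := by
    rintro ⟨x, hx⟩
    apply hr0
    rw [← hx, ← Category.assoc, comp23 hT, zero_comp]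
  obtain ⟨ψ, hψ, hψV⟩ := Submodule.exists_le_ker_of_notMem hrV
  obtain ⟨s, hs⟩ := lin_repr (numPair κ Z).flip (hZ.pairing hκ) ψ
  have h1 : s ≫ h = 0 := by
    obtain ⟨v, hv⟩ := (shiftFunctor C (1 : ℤ)).map_surjective (s ≫ h)
    rw [← hv]
    by_contra h2
    obtain ⟨x, hx⟩ := hX' v (fun h3 => h2 (by rw [h3, Functor.map_zero]))
    apply hx
    apply (shiftFunctor C (1 : ℤ)).map_injective
    rw [Functor.map_comp, hv, Category.assoc, Functor.map_zero, kappa_eq' hκ (hs _)]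
    have h3 : ψ (h ≫ x⟦(1 : ℤ)⟧') = 0 := hψV ⟨_, rfl⟩
    rw [h3, zero_smul]
  obtain ⟨s', hs'⟩ := ce3 hT s h1
  refine ⟨s', ?_⟩
  rw [← Category.assoc, ← hs', kappa_eq' hκ (hs r')]
  intro h2
  rcases smul_eq_zero.1 h2 with h3 | h3
  · exact hψ h3
  · apply hr0
    rw [← Category.comp_id (g ≫ r'), h3, comp_zero]

end Ext

end Pool.Agent.N209.FF
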