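import Pool.Agent.N209.FF.Fth
import Pool.Agent.N209.MT.Gen

/-!
# The t-structure of a semisimple category of motives over a finite field
-/

set_option autoImplicit false
set_option linter.unusedSectionVars false
set_option linter.unusedSimpArgs false
set_option backward.isDefEq.respectTransparency false
set_option backward.defeqAttrib.useBackward true

open CategoryTheory Limits MonoidalCategory Pretriangulated Triangulated ObjectProperty

namespace Pool.Agent.N209.FF

open Pool.Agent.Y116.MT Pool.Agent.N209.MT Pool.Agent.V1178.MT Pool.Agent.N209.CD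

universe v u w

section

variable {C : Type u} [Category.{v} C] [Preadditive C] [HasZeroObject C] [HasShift C ℤ]
  [∀ n : ℤ, (shiftFunctor C n).Additive] [Pretriangulated C]

/-- The complement of a split subobject. -/
lemma split_cone {K Y : C} (i : K ⟶ Y) (j : Y ⟶ K) (hij : i ≫ j = 𝟙 K) :
    ∃ (Q : C) (p : Y ⟶ Q) (d : Q ⟶ K⟦(1 : ℤ)⟧) (r : Q ⟶ Y), Triangle.mk i p d ∈ distTriang C ∧
      r ≫ p = 𝟙 Q ∧ r ≫ j = 0 := by
  obtain ⟨Q, p, d, hT⟩ := distinguished_cocone_triangle i
  have hd : d = 0 := by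
    have h1 : d ≫ i⟦(1 : ℤ)⟧' = 0 := comp31 hT
    have h2 : i⟦(1 : ℤ)⟧' ≫ j⟦(1 : ℤ)⟧' = 𝟙 _ := by
      rw [← Functor.map_comp, hij, CategoryTheory.Functor.map_id]
    rw [← Category.comp_id d, ← h2, ← Category.assoc, h1, zero_comp]
  obtain ⟨r, hr⟩ := split3' hT hd
  refine ⟨Q, p, d, r - r ≫ j ≫ i, hT, ?_, ?_⟩
  · rw [Preadditive.sub_comp, hr, Category.assoc, Category.assoc, comp12 hT, comp_zero,
      comp_zero, sub_zero]
  · rw [Preadditive.sub_comp, Category.assoc, Category.assoc, hij, Category.comp_id, sub_self]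

end

section

variable {C : Type u} [Category.{v} C] [Preadditive C] [HasZeroObject C] [HasShift C ℤ]
  [∀ n : ℤ, (shiftFunctor C n).Additive] [Pretriangulated C]
  [MonoidalCategory C] [SymmetricCategory C] [TensorTriangulated C] [MonoidalPreadditive C]
  [RightRigidCategory C]
  {Λ : Type*} {E : Λ → Type w} [∀ l, Field (E l)] {R : ∀ l, Realisation C (E l)}

/-- The map on cohomology is a monomorphism if the previous cohomology of the third object
vanishes. -/
lemma mono_of_isZero {E : Type w} [Field E] (R : Realisation C E) {X Y Z : C} {f : X ⟶ Y}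
    {g : Y ⟶ Z} {h : Z ⟶ X⟦(1 : ℤ)⟧} (hT : Triangle.mk f g h ∈ distTriang C) (m : ℤ)
    (hZ : IsZero (R.H.obj (Z⟦m - 1⟧))) : Mono (R.H.map (f⟦m⟧')) := by
  let _ := Functor.ShiftSequence.tautological R.H ℤ
  exact (R.H.homologySequence_mono_shift_map_mor₁_iff _ hT (m - 1) m (by omega)).2
    (hZ.eq_of_src _ _)

/-- If all morphisms are regular the objects in degree zero form an admissible class. -/
theorem adm_of_regular [IsTriangulated C] [IsIdempotentComplete C] {l₀ : Λ}
    (hf : IsFaithful (R l₀))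
    (hr : ∀ (M N : C) (f : M ⟶ N), ∃ g : N ⟶ M, f ≫ g ≫ f = f) : Adm (DegreeZero R) := by
  refine ⟨⟨fun e hX l => (hX l).iso e⟩, ⟨⟨_, isZero_zero C, fun l i hi => ?_⟩⟩, ?_, ?_⟩
  · exact (R l).H.map_isZero ((shiftFunctor C i).map_isZero (isZero_zero C))
  · intro X Y hX hY n hn f
    apply hf
    intro i
    by_cases hi : i = 0
    · subst hi
      have h1 : IsZero ((R l₀).H.obj (Y⟦n⟧⟦(0 : ℤ)⟧)) := (hY l₀ n hn.ne).of_iso
        ((R l₀).H.mapIso ((shiftFunctorAdd' C n 0 n (by omega)).app Y).symm)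
      exact h1.eq_of_tgt _ _
    · exact (hX l₀ i hi).eq_of_src _ _
  · intro Y N M a f b hT hN hM
    obtain ⟨g, hg⟩ := hr _ _ f
    have he : (𝟙 N - f ≫ g) ≫ (𝟙 N - f ≫ g) = 𝟙 N - f ≫ g := by
      have h1 : (f ≫ g) ≫ f ≫ g = f ≫ g := by
        have := congrArg (· ≫ g) hg
        simpa using this
      rw [Preadditive.sub_comp, Preadditive.comp_sub, Preadditive.comp_sub, h1]
      simp
    obtain ⟨K, iK, pK, h1, h2⟩ := IsIdempotentComplete.idempotents_split N _ he
    have hif : iK ≫ f = 0 := by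
      have h3 : iK = iK ≫ pK ≫ iK := by rw [← Category.assoc, h1, Category.id_comp]
      rw [h3, h2, Category.assoc, Preadditive.sub_comp, Category.id_comp, Category.assoc, hg,
        sub_self, comp_zero]
    obtain ⟨i, hi⟩ := ce2 hT iK hif
    obtain ⟨Q, p, d, r, hT', hr1, hr2⟩ := split_cone i (a ≫ pK) (by
      rw [← Category.assoc, ← hi, h1])
    refine ⟨K, Q, i, p, d, hT', fun l => ?_, fun l j hj => ?_⟩
    · intro j hj
      exact isZero_retract' (R := R l) iK pK h1 (hN l j hj)
    · refine IsZero.of_iso ?_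
        ((R l).H.mapIso ((shiftFunctorAdd' C 1 j (1 + j) rfl).app Q).symm)
      have hra : r ≫ a = 0 := by
        have h3 : r ≫ a = (r ≫ a ≫ f) ≫ g + (r ≫ a ≫ pK) ≫ iK := by
          simp only [Category.assoc]
          rw [h2, ← Preadditive.comp_add, ← Preadditive.comp_add]
          simp
        rw [h3, comp12 hT, comp_zero, zero_comp, hr2, zero_comp, add_zero]
      have hm : Mono ((R l).H.map (a⟦(1 + j)⟧')) := mono_of_isZero (R l) hT (1 + j)
        (by simpa using hM l (1 + j - 1) (by omega))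
      have hr0 : (R l).H.map (r⟦(1 + j)⟧') = 0 := by
        rw [← cancel_mono ((R l).H.map (a⟦(1 + j)⟧')), ← Functor.map_comp, ← Functor.map_comp,
          hra, Functor.map_zero, Functor.map_zero, zero_comp]
      rw [IsZero.iff_id_eq_zero, ← CategoryTheory.Functor.map_id,
        ← CategoryTheory.Functor.map_id, ← hr1, Functor.map_comp, Functor.map_comp, hr0,
        zero_comp]

variable [Linear ℚ C] [IsTriangulated C]
  {W : ObjectProperty C} (hW : IsChowClass W) {q : ℝ}
  (F : ∀ l, Frobenius (R l) W q) (hF : ∀ l l', (F l).Φ = (F l').Φ)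

include F hF in
/-- Independence of `l` of the degree, for pure objects. -/
lemma deg_all {l₀ : Λ} (hf : IsFaithful (R l₀)) {X : C} (hX : W X) {i : ℤ}
    (hXi : (R l₀).Deg X i) (l : Λ) : (R l).Deg X i := by
  obtain ⟨P, -, hP, hP'⟩ := (F l₀).pure X hX i
  have h1 : pev ((F l₀).φ X) P = 0 := by
    apply hf
    intro j
    by_cases hj : j = i
    · subst hj
      rw [map_pev, ← (F l₀).φ_shift]
      exact hP'
    · exact (hXi j hj).eq_of_src _ _
  intro j hj
  obtain ⟨P', -, hP1, hP1'⟩ := (F l).pure X hX j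
  have hφ : (F l).φ X = (F l₀).φ X := by
    have h2 := hF l l₀
    simp only [Frobenius.φ, h2]
  have h2 : pev ((F l).φ (X⟦j⟧)) P = 0 := by
    rw [(F l).φ_shift, hφ, ← map_pev, h1, Functor.map_zero]
  obtain ⟨a, b, hab⟩ := coprime_of_roots (F l).one_lt (Ne.symm hj) hP hP1
  have h3 : 𝟙 (X⟦j⟧) = pev ((F l).φ (X⟦j⟧)) P ≫ pev ((F l).φ (X⟦j⟧)) a +
      pev ((F l).φ (X⟦j⟧)) P' ≫ pev ((F l).φ (X⟦j⟧)) b := by
    rw [← pev_mul, ← pev_mul, ← pev_add, hab]
    exact (map_one (Polynomial.aeval (R := ℚ) (A := End (X⟦j⟧)) ((F l).φ (X⟦j⟧)))).symm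
  rw [IsZero.iff_id_eq_zero, ← CategoryTheory.Functor.map_id, h3, h2, zero_comp, zero_add,
    Functor.map_comp, show (R l).H.map (pev ((F l).φ (X⟦j⟧)) P') = 0 from hP1', zero_comp]

/-- The Künneth idempotents. -/
lemma kunneth_idem {E : Type w} [Field E] {R : Realisation C E} (F : Frobenius R W q)
    (hf : IsFaithful R) {X : C} (hX : W X) {I : Finset ℤ} (hI : ∀ j, j ∉ I →
      IsZero (R.H.obj (X⟦j⟧))) {i : ℤ} (hi : i ∈ I) :
    ∃ e : X ⟶ X, e ≫ e = e ∧ R.H.map (e⟦i⟧') = 𝟙 _ ∧ ∀ j, j ≠ i → R.H.map (e⟦j⟧') = 0 := by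
  choose P hP0 hP hP' using F.pure X hX
  have hco : IsCoprime (P i) (∏ j ∈ I.erase i, P j) := by
    refine IsCoprime.prod_right fun j hj => ?_
    exact coprime_of_roots F.one_lt (Finset.ne_of_mem_erase hj).symm (hP i) (hP j)
  obtain ⟨a, b, hab⟩ := hco
  let Q := b * ∏ j ∈ I.erase i, P j
  have hQ1 : Q = 1 - a * P i := by
    rw [← hab]
    ring
  have hmap : ∀ j : ℤ, R.H.map ((pev (F.φ X) Q)⟦j⟧') = R.H.map (pev (F.φ (X⟦j⟧)) Q) := by
    intro j
    rw [map_pev, F.φ_shift]
  have h1 : R.H.map ((pev (F.φ X) Q)⟦i⟧') = 𝟙 _ := by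
    rw [hmap, hQ1]
    have h2 : pev (F.φ (X⟦i⟧)) (1 - a * P i) = 𝟙 _ - pev (F.φ (X⟦i⟧)) (P i) ≫
        pev (F.φ (X⟦i⟧)) a := by
      rw [← pev_mul]
      exact (map_sub (Polynomial.aeval (R := ℚ) (A := End (X⟦i⟧)) (F.φ (X⟦i⟧))) 1 (a * P i)).trans
        (by rw [map_one]; rfl)
    rw [h2, Functor.map_sub, Functor.map_comp,
      show R.H.map (pev (F.φ (X⟦i⟧)) (P i)) = 0 from hP' i, zero_comp, sub_zero,
      CategoryTheory.Functor.map_id]
  have h2 : ∀ j : ℤ, j ≠ i → R.H.map ((pev (F.φ X) Q)⟦j⟧') = 0 := by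
    intro j hj
    by_cases hjI : j ∈ I
    · rw [hmap]
      have h3 : Q = P j * (b * ∏ k ∈ (I.erase i).erase j, P k) := by
        simp only [Q]
        rw [← Finset.mul_prod_erase (I.erase i) _ (Finset.mem_erase.2 ⟨hj, hjI⟩)]
        ring
      rw [h3, pev_mul, Functor.map_comp,
        show R.H.map (pev (F.φ (X⟦j⟧)) (P j)) = 0 from hP' j, comp_zero]
    · exact (hI j hjI).eq_of_src _ _
  refine ⟨pev (F.φ X) Q, ?_, h1, h2⟩
  rw [← sub_eq_zero]
  apply hf
  intro j
  rw [Functor.map_sub, Functor.map_comp, Functor.map_sub, Functor.map_comp]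
  by_cases hj : j = i
  · subst hj
    rw [h1, Category.comp_id, sub_self]
  · rw [h2 j hj, zero_comp, sub_self]

include hW F hF in
/-- The objects in degree zero generate. -/
theorem generates_degreeZero [IsIdempotentComplete C] {l₀ : Λ} (hf : IsFaithful (R l₀)) :
    (DegreeZero R).IsClassicalTriangulatedGenerator := by
  have hret := hW.retract
  have hne : (DegreeZero R).Nonempty := ⟨_, fun l => deg_unit⟩
  have hs : ∀ (X : C) (n : ℤ), (DegreeZero R).triangEnvelope (X⟦n⟧) →
      (DegreeZero R).triangEnvelope X := by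
    intro X n hX
    exact ((DegreeZero R).triangEnvelope).prop_of_iso ((shiftEquiv C n).unitIso.app X).symm
      (((DegreeZero R).triangEnvelope).le_shift (-n) _ hX)
  have key : ∀ (n : ℕ) (I : Finset ℤ) (X : C), I.card = n → W X →
      (∀ j, j ∉ I → IsZero ((R l₀).H.obj (X⟦j⟧))) → (DegreeZero R).triangEnvelope X := by
    intro n
    induction n with
    | zero =>
      intro I X hI hX hz
      have h1 : IsZero X := conservative_of_faithful hf X fun j => hz j (by
        rw [Finset.card_eq_zero.1 hI]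
        simp)
      refine ObjectProperty.le_triangEnvelope _ _ fun l j _ => ?_
      exact (R l).H.map_isZero ((shiftFunctor C j).map_isZero h1)
    | succ n ih =>
      intro I X hI hX hz
      obtain ⟨i, hi⟩ : ∃ i, i ∈ I := by
        have : I.Nonempty := by
          rw [← Finset.card_pos, hI]
          omega
        exact this
      obtain ⟨e, he, h1, h2⟩ := kunneth_idem (F l₀) hf hX hz hi
      obtain ⟨K, iK, pK, h3, h4⟩ := IsIdempotentComplete.idempotents_split X e he
      obtain ⟨Q, p, d, r, hT, hr1, hr2⟩ := split_cone iK pK h3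
      have hK : W K := W.prop_of_retract ⟨iK, pK, h3⟩ hX
      have hQ : W Q := W.prop_of_retract ⟨r, p, hr1⟩ hX
      have hKi : (R l₀).Deg K i := by
        intro j hj
        have h5 : iK ≫ e ≫ pK = 𝟙 K := by
          rw [← h4, Category.assoc, h3, Category.comp_id, h3]
        rw [IsZero.iff_id_eq_zero, ← CategoryTheory.Functor.map_id,
          ← CategoryTheory.Functor.map_id, ← h5, Functor.map_comp, Functor.map_comp,
          Functor.map_comp, Functor.map_comp, h2 j hj, zero_comp, comp_zero]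
      have hKe : (DegreeZero R).triangEnvelope K := by
        refine hs K i (ObjectProperty.le_triangEnvelope _ _ fun l => ?_)
        intro j hj
        exact (deg_all F hF hf hK hKi l (i + j) (by omega)).of_iso
          ((R l).H.mapIso ((shiftFunctorAdd' C i j (i + j) rfl).app K).symm)
      have hQz : ∀ j, j ∉ I.erase i → IsZero ((R l₀).H.obj (Q⟦j⟧)) := by
        intro j hj
        by_cases hji : j = i
        · subst hji
          have h5 : r ≫ e = 0 := by rw [← h4, ← Category.assoc, hr2, zero_comp]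
          have h6 : (R l₀).H.map (r⟦j⟧') = 0 := by
            rw [← Category.comp_id ((R l₀).H.map (r⟦j⟧')), ← h1, ← Functor.map_comp,
              ← Functor.map_comp, h5, Functor.map_zero, Functor.map_zero]
          rw [IsZero.iff_id_eq_zero, ← CategoryTheory.Functor.map_id,
            ← CategoryTheory.Functor.map_id, ← hr1, Functor.map_comp, Functor.map_comp, h6,
            zero_comp]
        · exact isZero_retract' (R := R l₀) r p hr1 (hz j fun h => hj (Finset.mem_erase.2
            ⟨hji, h⟩))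
      have hQe := ih (I.erase i) Q (by rw [Finset.card_erase_of_mem hi, hI]; rfl) hQ hQz
      exact ((DegreeZero R).triangEnvelope).ext_of_isTriangulatedClosed₂ _ hT hKe hQe
  have h1 : W ≤ (DegreeZero R).triangEnvelope := by
    intro X hX
    obtain ⟨N, hN⟩ := (R l₀).bounded X
    refine key _ (Finset.Icc (-(N : ℤ)) N) X rfl hX fun j hj => hN j ?_
    simp only [Finset.mem_Icc, not_and_or, not_le] at hj
    omega
  have h2 : W.triangEnvelope ≤ (DegreeZero R).triangEnvelope :=
    (triangEnvelope_le_iff ..).2 h1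
  have h3 := hW.generates
  rw [isClassicalTriangulatedGenerator_iff] at h3
  rw [isClassicalTriangulatedGenerator_iff, eq_top_iff, ← h3]
  exact h2

include hW F hF in
/-- A faithful realisation and regularity of all morphisms give a motivic t-structure. -/
theorem motivic_of_regular [IsIdempotentComplete C]
    (hid : ∀ e : 𝟙_ C ⟶ 𝟙_ C, e ≫ e = e → e = 0 ∨ e = 𝟙 _) {l₀ : Λ} (hf : IsFaithful (R l₀))
    (hr : ∀ (M N : C) (f : M ⟶ N), ∃ g : N ⟶ M, f ≫ g ≫ f = f) :
    ∃ t : TStructure C, IsMotivic t R := by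
  have hP := adm_of_regular (R := R) hf hr
  have hg := generates_degreeZero hW F hF hf
  exact ⟨_, motivic_all hid (motivic_of_adm' (R := R l₀) hP hg (fun X hX => hX l₀)
    (fun X Y hX hY l => by simpa using (hX l).tensor (hY l))) hg⟩

end

end Pool.Agent.N209.FF
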